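import Pool.Agent.Helper95.LN.Stmts
import Pool.Agent.Helper53.PN.MTH

/-! # LN: the row MTL (after the row MTH of helper53) -/

set_option autoImplicit false

namespace Pool.Agent.Helper39.LN

open MeasureTheory Filter Pool.Agent.Helper95 Pool.Agent.Helper95.PW Pool.Agent.Helper95.LN

/-- the energy bound of the approximating functions -/
theorem mtl_en (h10 : ST_QHM) (h11 : ST_INTM) {n M : ℕ} (X : Fin M → R3) (Z : Fin M → ℝ)
    (E Ce : ℝ) (hCe : 0 ≤ Ce) (hEn : E + nucR X Z ≤ Ce * n) (u : Wf n) (hu : Sm u)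
    (hsq : PW.sq u ≤ 2) (hres : resM X Z E u ≤ 1 / 2) :
    QM X Z u + nucR X Z * PW.sq u ≤ 2 * Ce * n + 1 := by
  have h1 := innm_Q_le h10 h11 X Z E u hu
  have h0 := com_sq_nonneg u
  have hn : (0 : ℝ) ≤ n := Nat.cast_nonneg n
  have h2 : (E + nucR X Z) * PW.sq u ≤ Ce * n * PW.sq u := mul_le_mul_of_nonneg_right hEn h0
  have h3 : Ce * n * PW.sq u ≤ Ce * n * 2 := mul_le_mul_of_nonneg_left hsq (by positivity)
  have h4 : (E + nucR X Z) * PW.sq u = E * PW.sq u + nucR X Z * PW.sq u := by ring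
  linarith

theorem MTL (h1 : ST_MLL) (h2 : ST_TBL) (h3 : ST_INLJ) (h4 : ST_E0) (h5 : ST_POTB)
    (h6 : ST_LIMG) (h7 : ST_CUT) (h8 : ST_APXM) (h9 : ST_LMTM) (h10 : ST_QHM)
    (h11 : ST_INTM) : ST_MTL := by
  intro z d Ce hz hd hCe
  obtain ⟨Ca, hCa, HA⟩ := h1 z d hz hd
  obtain ⟨Ct, hCt, HT⟩ := h2 z d Ce hz hd hCe
  obtain ⟨Cb, hCb, HB⟩ := h3
  obtain ⟨Cp, hCp, HP⟩ := h5 z d hz hd
  obtain ⟨K, hK, H6, _⟩ := h7
  have hK0 : 0 < K := by linarith
  obtain ⟨D, hD⟩ : ∃ D : ℝ, D = Cb * K ^ 4 * (2 * (Ca * (2 * Ce + 1 + Ca * (Ct + 1)))) :=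
    ⟨_, rfl⟩
  have hD0 : 0 < D := by rw [hD]; positivity
  refine ⟨3 * (D + 1), by positivity, ?_⟩
  intro n M X Z E φ G hn hM hNuc hZ1 hZz hSep hEn hG
  have hZ0 := hNuc.1
  have hE : E ≤ 0 := h4 n M X Z E hn hZ0 hG.low
  obtain ⟨u, hu⟩ := h8 n M X Z E φ G hG
  obtain ⟨l1, l2, l3⟩ := h9 n M X Z E φ G u hG hu
  obtain ⟨hsm, _, _, ⟨M0, hM0⟩, hres⟩ := hu
  obtain ⟨W, hW⟩ : ∃ W : ℝ, W = n * (M : ℝ) ^ (2 / 3 : ℝ) := ⟨_, rfl⟩
  have hn1 : (1:ℝ) ≤ n := by exact_mod_cast hn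
  have hM1 : (1:ℝ) ≤ M := by exact_mod_cast hM
  have hW1 : 1 ≤ W := by
    rw [hW]
    have := Real.one_le_rpow hM1 (by norm_num : (0:ℝ) ≤ 2 / 3)
    nlinarith
  obtain ⟨T, hT⟩ : ∃ T : ℝ, T = kinG G := ⟨_, rfl⟩
  rw [← hT] at l2
  have hT0 : 0 ≤ T := ge_of_tendsto' l2 (fun j => com_kin_nonneg _)
  obtain ⟨C', hC', HA'⟩ := HA n M X Z E (T + 1) hM hn hSep hNuc hZ1 hZz
  obtain ⟨V, hV⟩ : ∃ V : ℝ, V = Ca * (2 * Ce * n + 1 + Ca * (Ct * n + n)) := ⟨_, rfl⟩
  have hV0 : 0 ≤ V := by rw [hV]; positivity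
  have key : ∀ m : Fin 3, PW.sq (fun s x => ∑ k, G k m s x) ^ 2 ≤
      Cb * K ^ 4 * (2 * n * V) := by
    intro m
    have hLt : Tendsto (fun L : ℕ => ((L:ℝ) + 1) / 2) atTop atTop :=
      (tendsto_natCast_atTop_atTop.atTop_add tendsto_const_nhds).atTop_div_const (by norm_num)
    have hL0 : ∀ᶠ L : ℕ in atTop, ∀ j, nr (X j) ≤ ((L:ℝ) + 1) / 2 := by
      rw [Filter.eventually_all]
      intro j
      exact hLt.eventually_ge_atTop _
    have hev : ∀ᶠ L : ℕ in atTop, PW.sq (PG (gm m (L + 1)) φ G) ^ 2 ≤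
        Cb * K ^ 4 * (2 * n * ((T + (Cp * (T + W) + W) + Cp * (T + W)) / (((L:ℝ) + 1) / 2) ^ 2 +
          2 * n / (((L:ℝ) + 1) / 2) ^ 4 + V)) := by
      filter_upwards [hL0] with L hL
      have hLp : (0:ℝ) < (L:ℝ) + 1 := by positivity
      obtain ⟨R, hR⟩ : ∃ R : ℝ, R = ((L:ℝ) + 1) / 2 := ⟨_, rfl⟩
      rw [← hR] at hL ⊢
      have hRp : 0 < R := by rw [hR]; positivity
      obtain ⟨B, hB⟩ : ∃ B : ℝ, B = (T + 1) + (Cp * (T + 1 + W) + W) + |M0| := ⟨_, rfl⟩
      obtain ⟨C'', hC'', HI⟩ := HB n M X Z E (fun m => gm m ((L:ℝ) + 1)) K R B Set.univ hG.low hZ0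
        hK (fun m => MTH_scale (H6 m _ hLp).1 hK0.le hRp (by rw [hR]; linarith)) hRp isClosed_univ
        (fun m y hy => absurd (Set.mem_univ y) hy)
        (fun m j y hy i => MTH_pd m _ (H6 m _ hLp).2.1 y
          (MTH_geo y (X j) _ hLp (by rw [← hR]; exact hy) (by rw [← hR]; exact hL j)) i)
      have hevj : ∀ᶠ j in atTop, PW.sq (fun s => Pg (gm m ((L:ℝ) + 1)) (u j s)) ^ 2 ≤
          Cb * K ^ 4 * (2 * n * ((kin (u j) + (Cp * (kin (u j) + W) + W) +
            Cp * (kin (u j) + W)) / R ^ 2 + 2 * n / R ^ 4 +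
            (V + C' * Real.sqrt (resM X Z E (u j))))) + C'' * Real.sqrt (resM X Z E (u j)) := by
        have e1 : ∀ᶠ j in atTop, PW.sq (u j) ≤ 2 :=
          l1.eventually_le_const (by norm_num : (1:ℝ) < 2)
        have e2 : ∀ᶠ j in atTop, resM X Z E (u j) ≤ 1 / 2 :=
          hres.eventually_le_const (by norm_num : (0:ℝ) < 1 / 2)
        have e3 : ∀ᶠ j in atTop, kin (u j) ≤ T + 1 :=
          l2.eventually_le_const (by linarith)
        filter_upwards [e1, e2, e3] with j hj1 hj2 hj3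
        have hQ := innm_Q_le_one h10 h11 X Z E (u j) (hsm j).1 hE hj1 hj2
        have hQ2 := mtl_en h10 h11 X Z E Ce hCe hEn (u j) (hsm j).1 hj1 hj2
        have p1 := com_kin_nonneg (u j)
        have p2 := com_pair_nonneg (u j)
        have p3 : 0 ≤ one (pot X Z) (u j) :=
          com_one_nonneg _ (innm_pot_nonneg X Z hZ0) _
        have q1 := HP n M X Z (u j) hM hSep hZ0 hZz (hsm j).1 hj1
        rw [← hW] at q1
        have q2 : pair (u j) ≤ Cp * (kin (u j) + W) + W := by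
          unfold QM at hQ
          linarith
        have q4 : kin (u j) ≤ Ct * n :=
          HT n M X Z E (u j) hn hNuc hZz hSep hEn (hsm j).1 hj1 hj2
        have hs0 := Real.sqrt_nonneg (resM X Z E (u j))
        obtain ⟨B1, hB1⟩ : ∃ B1 : ℝ, B1 = V + C' * Real.sqrt (resM X Z E (u j)) := ⟨_, rfl⟩
        have hB1n : 0 ≤ B1 := by rw [hB1]; positivity
        have q3 : ∀ s : ℝ, 0 < s → s ≤ d →
            ∑ j', Z j' * one (fun y => mor s (y - X j')) (u j) ≤ B1 := by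
          intro s hs hsd
          refine (HA' (u j) (hsm j).1 hj1 hj3 s hs hsd).trans ?_
          rw [hB1, hV]
          have w1 : Ca * (kin (u j) + n) ≤ Ca * (Ct * n + n) :=
            mul_le_mul_of_nonneg_left (by linarith) hCa.le
          have w2 : Ca * (QM X Z (u j) - kin (u j) + nucR X Z * PW.sq (u j) +
              Ca * (kin (u j) + n)) ≤ Ca * (2 * Ce * n + 1 + Ca * (Ct * n + n)) :=
            mul_le_mul_of_nonneg_left (by linarith) hCa.le
          linarith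
        have hcp : Cp * (kin (u j) + W) ≤ Cp * (T + 1 + W) :=
          mul_le_mul_of_nonneg_left (by linarith) hCp.le
        have hcp0 : 0 ≤ Cp * (kin (u j) + W) := by positivity
        have hM2 := le_abs_self M0
        have hM3 := abs_nonneg M0
        have hM4 := hM0 j
        have hb := HI (u j) (hsm j).1 (hsm j).2 hj1 (by linarith) (by linarith) (by linarith)
          (by linarith) (by linarith) B1 d hB1n hd q3 m
        refine hb.trans (add_le_add ?_ le_rfl)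
        have n1 := MTH_ind (u j) hj1
        have n0 : 0 ≤ one (ind Set.univ) (u j) := com_one_nonneg _ (innm_ind_nonneg _) _
        apply mul_le_mul_of_nonneg_left _ (by positivity)
        have b1 : (kin (u j) + pair (u j) + one (pot X Z) (u j)) / R ^ 2 ≤
            (kin (u j) + (Cp * (kin (u j) + W) + W) + Cp * (kin (u j) + W)) / R ^ 2 :=
          div_le_div_of_nonneg_right (by linarith) (by positivity)
        have b2 : one (ind Set.univ) (u j) / R ^ 4 ≤ 2 * n / R ^ 4 :=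
          div_le_div_of_nonneg_right n1 (by positivity)
        have b0 : 0 ≤ (kin (u j) + pair (u j) + one (pot X Z) (u j)) / R ^ 2 +
            one (ind Set.univ) (u j) / R ^ 4 + B1 := by positivity
        exact mul_le_mul n1 (by linarith) b0 (by positivity)
      have lim1 : Tendsto (fun j => PW.sq (fun s => Pg (gm m ((L:ℝ) + 1)) (u j s)) ^ 2) atTop
          (nhds (PW.sq (PG (gm m ((L:ℝ) + 1)) φ G) ^ 2)) :=
        (l3 _ (H6 m _ hLp).1.sm (H6 m _ hLp).1.cs).pow 2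
      have lr : Tendsto (fun j => Real.sqrt (resM X Z E (u j))) atTop (nhds 0) := by
        have := hres.sqrt
        rwa [Real.sqrt_zero] at this
      have lim2 : Tendsto (fun j => Cb * K ^ 4 * (2 * n * ((kin (u j) +
            (Cp * (kin (u j) + W) + W) + Cp * (kin (u j) + W)) / R ^ 2 + 2 * n / R ^ 4 +
            (V + C' * Real.sqrt (resM X Z E (u j))))) + C'' * Real.sqrt (resM X Z E (u j))) atTop
          (nhds (Cb * K ^ 4 * (2 * n * ((T + (Cp * (T + W) + W) + Cp * (T + W)) / R ^ 2 +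
            2 * n / R ^ 4 + (V + C' * 0))) + C'' * 0)) := by
        have t1 := ((l2.add_const W).const_mul Cp)
        have t2 := (l2.add (t1.add_const W))
        have t3 := ((t2.add t1).div_const (R ^ 2)).add_const (2 * (n:ℝ) / R ^ 4)
        have t4 := (lr.const_mul C').const_add V
        exact (((t3.add t4).const_mul (2 * (n:ℝ))).const_mul (Cb * K ^ 4)).add
          (lr.const_mul C'')
      have hfin := le_of_tendsto_of_tendsto lim1 lim2 hevj
      rw [mul_zero, mul_zero, add_zero, add_zero] at hfin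
      exact hfin
    have lim1 := (h6 n φ G m hG.lp hG.lpG).pow 2
    have t0 : Tendsto (fun L : ℕ => (((L:ℝ) + 1) / 2) ^ 2) atTop atTop :=
      (tendsto_pow_atTop two_ne_zero).comp hLt
    have t1 : Tendsto (fun L : ℕ => (((L:ℝ) + 1) / 2) ^ 4) atTop atTop :=
      (tendsto_pow_atTop four_ne_zero).comp hLt
    have t2 := (t0.const_div_atTop (T + (Cp * (T + W) + W) + Cp * (T + W))).add
      (t1.const_div_atTop (2 * (n:ℝ)))
    have t3 := ((t2.add_const V).const_mul (2 * (n:ℝ))).const_mul (Cb * K ^ 4)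
    have hfin := le_of_tendsto_of_tendsto lim1 t3 hev
    rw [add_zero, zero_add] at hfin
    exact hfin
  have hVn : V ≤ Ca * (2 * Ce + 1 + Ca * (Ct + 1)) * n := by
    rw [hV]
    have h12 : Ca * (2 * Ce + 1 + Ca * (Ct + 1)) * n =
        Ca * (2 * Ce * n + n + Ca * (Ct * n + n)) := by ring
    rw [h12]
    exact mul_le_mul_of_nonneg_left (by linarith) hCa.le
  have key2 : ∀ m : Fin 3, PW.sq (fun s x => ∑ k, G k m s x) ≤ (D + 1) * n := by
    intro m
    have k1 := key m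
    have k2 : Cb * K ^ 4 * (2 * n * V) ≤ D * n ^ 2 := by
      calc Cb * K ^ 4 * (2 * n * V) ≤
            Cb * K ^ 4 * (2 * n * (Ca * (2 * Ce + 1 + Ca * (Ct + 1)) * n)) := by gcongr
        _ = D * n ^ 2 := by rw [hD]; ring
    have k3 : D * (n : ℝ) ^ 2 ≤ ((D + 1) * n) ^ 2 := by
      rw [mul_pow]
      exact mul_le_mul_of_nonneg_right (by nlinarith) (by positivity)
    have k0 : 0 ≤ PW.sq (fun s x => ∑ k, G k m s x) := com_sq_nonneg _
    exact (pow_le_pow_iff_left₀ k0 (by positivity) two_ne_zero).1 ((k1.trans k2).trans k3)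
  have hsum : mom G ≤ ∑ _i : Fin 3, (D + 1) * (n : ℝ) := by
    unfold mom
    exact Finset.sum_le_sum fun m _ => key2 m
  rw [Finset.sum_const, Finset.card_univ, Fintype.card_fin, nsmul_eq_mul] at hsum
  push_cast at hsum
  linarith

end Pool.Agent.Helper39.LN
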